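import Mathlib
import Pool.Graph.R_seed8.H369R3.SubsetMain

/-!
# MP_c4f5bb_an: Lipschitz retractions between finite subset spaces

`X(n)` is the space of nonempty subsets of `X` with at most `n` points, with the Hausdorff metric.
For all `k ≤ n`, `X(k)` is a Lipschitz retract of `X(n)` whenever `X` is a convex subset of a normed
space, a Lipschitz retract of such a set, or an absolute Lipschitz retract, with a constant that
depends only on `n`, `k` and the constant of the retract.
-/

set_option autoImplicit false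
set_option linter.unusedSectionVars false

open Set Metric Pool.Agent.H369R3.SubsetRetract

namespace Pool.Agent.Results.MP_c4f5bb_an.LipschitzRetracts

/-- `S` is a point of `X(n)`: a nonempty set with at most `n` points. -/
def InFin {X : Type} (n : ℕ) (S : Set X) : Prop := S.Nonempty ∧ S.Finite ∧ S.ncard ≤ n

/-- The constant `∏ (100 j²)`, `k < j ≤ k + m`. -/
def con (k m : ℕ) : ℝ := ∏ i ∈ Finset.range m, (100 * ((k + i + 1 : ℕ) : ℝ) ^ 2)

lemma con_nonneg (k m : ℕ) : 0 ≤ con k m := Finset.prod_nonneg fun i _ => by positivity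

section

variable {E : Type} [NormedAddCommGroup E] [NormedSpace ℝ E]

/-- the composition of the retractions `E(n) → E(n-1)`, `n = k + m, ..., k + 1` -/
noncomputable def R (k : ℕ) : ℕ → Set E → Set E
  | 0, S => S
  | m + 1, S => R k m (retr (k + m + 1) S)

lemma retr_conv (n : ℕ) (hn : 2 ≤ n) (S : Set E) (hS : InFin n S) :
    retr n S ⊆ convexHull ℝ S := by
  classical
  obtain ⟨hne, hf, hc⟩ := hS
  by_cases h : S.ncard = n
  · rw [retr_of_eq n S hf h]
    have hpos : 0 < S.infsep := (hf.infsep_pos_iff_nontrivial).2 (nontriv n hn S hf h)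
    rintro _ ⟨p, hp, rfl⟩
    set F := hf.toFinset with hF
    have hp' : p ∈ F := hf.mem_toFinset.2 hp
    have htot : 0 < tot F S.infsep p := lt_of_lt_of_le hpos (tot_ge F S.infsep hpos hp')
    have h1 : p + disp F S.infsep p =
        F.centerMass (fun q => wt F S.infsep p q) (fun q => q) := by
      unfold disp Finset.centerMass
      have h2 : ∑ q ∈ F, wt F S.infsep p q = tot F S.infsep p := rfl
      rw [h2]
      have h3 : ∑ q ∈ F, wt F S.infsep p q • (q - p) =
          ∑ q ∈ F, wt F S.infsep p q • q - tot F S.infsep p • p := by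
        simp only [smul_sub, Finset.sum_sub_distrib, ← Finset.sum_smul, h2]
      rw [h3, smul_sub, smul_smul, inv_mul_cancel₀ htot.ne', one_smul]
      abel
    show p + disp F S.infsep p ∈ convexHull ℝ S
    rw [h1]
    apply Finset.centerMass_mem_convexHull
    · intro q _; exact wt_nonneg F S.infsep p q
    · exact htot
    · intro q hq; exact hf.mem_toFinset.1 hq
  · rw [retr_of_ne n S h]
    exact subset_convexHull ℝ S

lemma retr_lip (n : ℕ) (hn : 2 ≤ n) (S T : Set E) (hS : InFin n S) (hT : InFin n T) :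
    hausdorffDist (retr n S) (retr n T) ≤ 100 * n ^ 2 * hausdorffDist S T := by
  obtain ⟨hSne, hSf, hSc⟩ := hS
  obtain ⟨hTne, hTf, hTc⟩ := hT
  have h1 := near_of_hausdorff S T hSne hSf hTne hTf
  have h2 := near_of_hausdorff T S hTne hTf hSne hSf
  rw [hausdorffDist_comm] at h2
  have hε : 0 ≤ hausdorffDist S T := hausdorffDist_nonneg
  apply hausdorffDist_le_of_mem_dist (by positivity)
  · exact retr_one_side n hn S T hSf hTf hSc hTc _ hε h1 h2
  · exact retr_one_side n hn T S hTf hSf hTc hSc _ hε h2 h1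

lemma R_spec (k : ℕ) (hk : 1 ≤ k) (m : ℕ) :
    (∀ S : Set E, InFin (k + m) S → InFin k (R k m S) ∧ R k m S ⊆ convexHull ℝ S) ∧
    (∀ S : Set E, InFin k S → R k m S = S) ∧
    (∀ S T : Set E, InFin (k + m) S → InFin (k + m) T →
      hausdorffDist (R k m S) (R k m T) ≤ con k m * hausdorffDist S T) := by
  induction m with
  | zero =>
    refine ⟨fun S hS => ⟨hS, subset_convexHull ℝ S⟩, fun S _ => rfl, fun S T _ _ => ?_⟩
    simp [R, con]
  | succ m ih =>
    obtain ⟨ih1, ih2, ih3⟩ := ih
    have hn : 2 ≤ k + m + 1 := by omega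
    have hfin : ∀ S : Set E, InFin (k + (m + 1)) S → InFin (k + m) (retr (k + m + 1) S) := by
      rintro S ⟨hne, hf, hc⟩
      obtain ⟨a1, a2, a3⟩ := retr_card (k + m + 1) hn S hne hf (by omega)
      exact ⟨a1, a2, by omega⟩
    refine ⟨fun S hS => ?_, fun S hS => ?_, fun S T hS hT => ?_⟩
    · obtain ⟨h1, h2⟩ := ih1 _ (hfin S hS)
      refine ⟨h1, h2.trans ?_⟩
      exact convexHull_min (retr_conv (k + m + 1) hn S hS) (convex_convexHull ℝ S)
    · have h1 : retr (k + m + 1) S = S := by
        apply retr_of_ne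
        have := hS.2.2
        omega
      show R k m (retr (k + m + 1) S) = S
      rw [h1]
      exact ih2 S hS
    · have h1 := ih3 _ _ (hfin S hS) (hfin T hT)
      have h2 := retr_lip (k + m + 1) hn S T hS hT
      have h3 : con k (m + 1) = con k m * (100 * ((k + m + 1 : ℕ) : ℝ) ^ 2) := by
        unfold con
        rw [Finset.prod_range_succ]
      rw [h3, mul_assoc]
      exact h1.trans (mul_le_mul_of_nonneg_left h2 (con_nonneg k m))

end

/-- `r` is an `A`-Lipschitz retraction of `X(n)` onto `X(k)` for the Hausdorff distance. -/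
def IsLipRetraction {X : Type} [PseudoMetricSpace X] (n k : ℕ) (A : ℝ) (r : Set X → Set X) : Prop :=
  (∀ S, InFin n S → InFin k (r S)) ∧ (∀ S, InFin k S → r S = S) ∧
    ∀ S T, InFin n S → InFin n T →
      Metric.hausdorffDist (r S) (r T) ≤ A * Metric.hausdorffDist S T

/-- `X` is an `L`-Lipschitz retract of a convex subset of a normed space. -/
def RetractOfConvex (X : Type) [MetricSpace X] (L : ℝ) : Prop :=
  ∃ (E : Type) (_ : NormedAddCommGroup E) (_ : NormedSpace ℝ E) (C : Set E) (i : X → E)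
    (ρ : E → X), Convex ℝ C ∧ Isometry i ∧ (∀ x, i x ∈ C) ∧ (∀ x, ρ (i x) = x) ∧
      ∀ a ∈ C, ∀ b ∈ C, dist (ρ a) (ρ b) ≤ L * dist a b

/-- `X` is an absolute `L`-Lipschitz retract: it is an `L`-Lipschitz retract of every metric space
that contains it. -/
def AbsoluteRetract (X : Type) [MetricSpace X] (L : ℝ) : Prop :=
  ∀ (Z : Type) [MetricSpace Z] (j : X → Z), Isometry j →
    ∃ ρ : Z → X, (∀ x, ρ (j x) = x) ∧ ∀ z w, dist (ρ z) (ρ w) ≤ L * dist z w

lemma image_lip {E X : Type} [PseudoMetricSpace E] [PseudoMetricSpace X] (ρ : E → X) (C : Set E)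
    (L : ℝ) (hL : 0 ≤ L) (hρ : ∀ a ∈ C, ∀ b ∈ C, dist (ρ a) (ρ b) ≤ L * dist a b) (A B : Set E)
    (hA : A ⊆ C) (hB : B ⊆ C) (hAf : A.Finite) (hBf : B.Finite) (hAn : A.Nonempty)
    (hBn : B.Nonempty) :
    hausdorffDist (ρ '' A) (ρ '' B) ≤ L * hausdorffDist A B := by
  have key : ∀ A B : Set E, A ⊆ C → B ⊆ C → A.Finite → B.Finite → A.Nonempty → B.Nonempty →
      ∀ x ∈ ρ '' A, ∃ y ∈ ρ '' B, dist x y ≤ L * hausdorffDist A B := by
    rintro A B hA hB hAf hBf hAn hBn _ ⟨a, ha, rfl⟩
    obtain ⟨b, hb, hab⟩ := hBf.isCompact.exists_infDist_eq_dist hBn a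
    refine ⟨ρ b, ⟨b, hb, rfl⟩, ?_⟩
    refine (hρ a (hA ha) b (hB hb)).trans (mul_le_mul_of_nonneg_left ?_ hL)
    rw [← hab]
    exact infDist_le_hausdorffDist_of_mem ha
      (hausdorffEDist_ne_top_of_nonempty_of_bounded hAn hBn hAf.isBounded hBf.isBounded)
  apply hausdorffDist_le_of_mem_dist (mul_nonneg hL hausdorffDist_nonneg)
  · exact key A B hA hB hAf hBf hAn hBn
  · have := key B A hB hA hBf hAf hBn hAn
    rwa [hausdorffDist_comm] at this

lemma L_nonneg {X : Type} [MetricSpace X] [Nontrivial X] {L : ℝ} (h : RetractOfConvex X L) :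
    0 ≤ L := by
  obtain ⟨E, _, _, C, i, ρ, hC, hi, hiC, hρi, hρ⟩ := h
  obtain ⟨x, y, hxy⟩ := exists_pair_ne X
  have h1 := hρ (i x) (hiC x) (i y) (hiC y)
  rw [hρi, hρi, hi.dist_eq] at h1
  have h2 : 0 < dist x y := dist_pos.2 hxy
  by_contra hcon
  push Not at hcon
  nlinarith

theorem of_convex (X : Type) [MetricSpace X] (L : ℝ) (hL : 0 ≤ L) (h : RetractOfConvex X L)
    (k m : ℕ) (hk : 1 ≤ k) :
    ∃ r : Set X → Set X, IsLipRetraction (k + m) k (con k m * L) r := by
  obtain ⟨E, _, _, C, i, ρ, hC, hi, hiC, hρi, hρ⟩ := h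
  obtain ⟨r1, r2, r3⟩ := R_spec (E := E) k hk m
  have hin : ∀ (n : ℕ) (S : Set X), InFin n S → InFin n (i '' S) := by
    rintro n S ⟨h1, h2, h3⟩
    exact ⟨h1.image i, h2.image i, (ncard_image_le h2).trans h3⟩
  have hCsub : ∀ S : Set X, convexHull ℝ (i '' S) ⊆ C := by
    intro S
    apply convexHull_min _ hC
    rintro _ ⟨x, _, rfl⟩
    exact hiC x
  refine ⟨fun S => ρ '' (R k m (i '' S)), fun S hS => ?_, fun S hS => ?_, fun S T hS hT => ?_⟩
  · obtain ⟨⟨h1, h2, h3⟩, _⟩ := r1 _ (hin _ S hS)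
    exact ⟨h1.image ρ, h2.image ρ, (ncard_image_le h2).trans h3⟩
  · show ρ '' (R k m (i '' S)) = S
    rw [r2 _ (hin _ S hS), image_image]
    simp only [hρi, image_id']
  · obtain ⟨⟨a1, a2, a3⟩, a4⟩ := r1 _ (hin _ S hS)
    obtain ⟨⟨b1, b2, b3⟩, b4⟩ := r1 _ (hin _ T hT)
    have h1 := image_lip ρ C L hL hρ _ _ (a4.trans (hCsub S)) (b4.trans (hCsub T)) a2 b2 a1 b1
    have h2 := r3 _ _ (hin _ S hS) (hin _ T hT)
    rw [hausdorffDist_image hi] at h2
    calc _ ≤ L * hausdorffDist (R k m (i '' S)) (R k m (i '' T)) := h1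
      _ ≤ L * (con k m * hausdorffDist S T) := mul_le_mul_of_nonneg_left h2 hL
      _ = con k m * L * hausdorffDist S T := by ring

/-- the embedding of a metric space into its bounded functions -/
noncomputable def kur {X : Type} [MetricSpace X] (x₀ x : X) : BoundedContinuousFunction X ℝ :=
  BoundedContinuousFunction.ofNormedAddCommGroup (fun y => dist x y - dist x₀ y)
    (by fun_prop) (dist x x₀) (fun y => by
      rw [Real.norm_eq_abs]
      exact abs_dist_sub_le x x₀ y)

lemma kur_isometry {X : Type} [MetricSpace X] (x₀ : X) : Isometry (kur x₀) := by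
  apply Isometry.of_dist_eq
  intro x y
  apply le_antisymm
  · rw [BoundedContinuousFunction.dist_le dist_nonneg]
    intro z
    show dist (dist x z - dist x₀ z) (dist y z - dist x₀ z) ≤ dist x y
    rw [Real.dist_eq, sub_sub_sub_cancel_right]
    exact abs_dist_sub_le x y z
  · have h1 := BoundedContinuousFunction.dist_coe_le_dist (f := kur x₀ x) (g := kur x₀ y) y
    have h2 : dist (kur x₀ x y) (kur x₀ y y) = dist x y := by
      show dist (dist x y - dist x₀ y) (dist y y - dist x₀ y) = dist x y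
      rw [Real.dist_eq, sub_sub_sub_cancel_right, dist_self, sub_zero, abs_of_nonneg dist_nonneg]
    rw [h2] at h1
    exact h1

theorem absolute (X : Type) [MetricSpace X] [Nonempty X] (L : ℝ) (h : AbsoluteRetract X L) :
    RetractOfConvex X L := by
  obtain ⟨x₀⟩ := (inferInstance : Nonempty X)
  obtain ⟨ρ, h1, h2⟩ := h (BoundedContinuousFunction X ℝ) (kur x₀) (kur_isometry x₀)
  exact ⟨BoundedContinuousFunction X ℝ, inferInstance, inferInstance, univ, kur x₀, ρ, convex_univ,
    kur_isometry x₀, fun _ => mem_univ _, h1, fun a _ b _ => h2 a b⟩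

/-- **Main theorem.** Let `1 ≤ k` and `m ≥ 0`, `n = k + m`, and let
`con k m = ∏ (100 j²)`, `k < j ≤ n`.
(1) Every normed space `E` has a retraction `r : E(n) → E(k)` which is `con k m`-Lipschitz and
satisfies `r(S) ⊆ conv S` (hence restricts to `C(n) → C(k)` for every convex subset `C` of `E`).
(2) Every metric space `X` which is an `L`-Lipschitz retract of a convex subset of a normed space
has a `(con k m) L`-Lipschitz retraction `X(n) → X(k)`.
(3) So has every absolute `L`-Lipschitz retract, in particular (`L = 1`) every injective metric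
space. -/
theorem result (k m : ℕ) (hk : 1 ≤ k) :
    (∀ (E : Type) [NormedAddCommGroup E] [NormedSpace ℝ E], ∃ r : Set E → Set E,
      IsLipRetraction (k + m) k (con k m) r ∧ ∀ S, InFin (k + m) S → r S ⊆ convexHull ℝ S) ∧
    (∀ (X : Type) [MetricSpace X] (L : ℝ), 0 ≤ L → RetractOfConvex X L →
      ∃ r : Set X → Set X, IsLipRetraction (k + m) k (con k m * L) r) ∧
    (∀ (X : Type) [MetricSpace X] (L : ℝ), 0 ≤ L → AbsoluteRetract X L →
      ∃ r : Set X → Set X, IsLipRetraction (k + m) k (con k m * L) r) := by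
  refine ⟨fun E _ _ => ?_, fun X _ L hL h => of_convex X L hL h k m hk, fun X _ L hL h => ?_⟩
  · obtain ⟨r1, r2, r3⟩ := R_spec (E := E) k hk m
    exact ⟨R k m, ⟨fun S hS => (r1 S hS).1, r2, r3⟩, fun S hS => (r1 S hS).2⟩
  · rcases isEmpty_or_nonempty X with hX | hX
    · refine ⟨id, fun S hS => ?_, fun S _ => rfl, fun S T hS _ => ?_⟩
      · obtain ⟨x, _⟩ := hS.1
        exact (hX.false x).elim
      · obtain ⟨x, _⟩ := hS.1
        exact (hX.false x).elim
    · exact of_convex X L hL (absolute X L h) k m hk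

end Pool.Agent.Results.MP_c4f5bb_an.LipschitzRetracts
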